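import Mathlib

namespace Pool.Agent.Results.MP_1231ed_gt.RotatedRationals

/-- The rational numbers, as a subset of the real line. -/
def ratSet : Set ℝ := {x | ∃ q : ℚ, x = q}

/-- The rational multiples of the square root of two, as a subset of the real line. -/
def ratSqrtTwoSet : Set ℝ := {x | ∃ q : ℚ, x = q * Real.sqrt 2}

/-- The rotation by 45 degrees from the square of `ratSet` onto the square of `ratSqrtTwoSet`. -/
noncomputable def rot : (ratSet × ratSet) ≃ (ratSqrtTwoSet × ratSqrtTwoSet) where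
  toFun x := (⟨(x.1 - x.2) / 2 * Real.sqrt 2, by
      obtain ⟨⟨a, p, rfl⟩, ⟨b, q, rfl⟩⟩ := x
      exact ⟨(p - q) / 2, by push_cast; rfl⟩⟩,
    ⟨(x.1 + x.2) / 2 * Real.sqrt 2, by
      obtain ⟨⟨a, p, rfl⟩, ⟨b, q, rfl⟩⟩ := x
      exact ⟨(p + q) / 2, by push_cast; rfl⟩⟩)
  invFun y := (⟨(y.1 + y.2) / 2 * Real.sqrt 2, by
      obtain ⟨⟨a, p, rfl⟩, ⟨b, q, rfl⟩⟩ := y
      refine ⟨p + q, ?_⟩
      have h : Real.sqrt 2 * Real.sqrt 2 = 2 := Real.mul_self_sqrt (by norm_num)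
      push_cast
      linear_combination ((p : ℝ) + q) / 2 * h⟩,
    ⟨(y.2 - y.1) / 2 * Real.sqrt 2, by
      obtain ⟨⟨a, p, rfl⟩, ⟨b, q, rfl⟩⟩ := y
      refine ⟨q - p, ?_⟩
      have h : Real.sqrt 2 * Real.sqrt 2 = 2 := Real.mul_self_sqrt (by norm_num)
      push_cast
      linear_combination ((q : ℝ) - p) / 2 * h⟩)
  left_inv x := by
    have h : Real.sqrt 2 * Real.sqrt 2 = 2 := Real.mul_self_sqrt (by norm_num)
    ext
    · simp only []
      linear_combination (x.1 : ℝ) / 2 * h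
    · simp only []
      linear_combination (x.2 : ℝ) / 2 * h
  right_inv y := by
    have h : Real.sqrt 2 * Real.sqrt 2 = 2 := Real.mul_self_sqrt (by norm_num)
    ext
    · simp only []
      linear_combination (y.1 : ℝ) / 2 * h
    · simp only []
      linear_combination (y.2 : ℝ) / 2 * h

theorem rot_dist (x y : ratSet × ratSet) :
    dist (rot x).1 (rot y).1 ^ 2 + dist (rot x).2 (rot y).2 ^ 2 =
      dist x.1 y.1 ^ 2 + dist x.2 y.2 ^ 2 := by
  have h : Real.sqrt 2 * Real.sqrt 2 = 2 := Real.mul_self_sqrt (by norm_num)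
  simp only [Subtype.dist_eq, Real.dist_eq, sq_abs, rot, Equiv.coe_fn_mk]
  linear_combination (((x.1 : ℝ) - y.1) ^ 2 + ((x.2 : ℝ) - y.2) ^ 2) / 2 * h

/-- There are metric spaces `A`, `B` whose squares with the Euclidean product metric are
isometric although `A` and `B` are not isometric. -/
theorem result :
    ∃ (A B : Type) (_ : MetricSpace A) (_ : MetricSpace B),
      (∃ φ : (A × A) ≃ (B × B), ∀ x y : A × A,
        Real.sqrt (dist (φ x).1 (φ y).1 ^ 2 + dist (φ x).2 (φ y).2 ^ 2) =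
          Real.sqrt (dist x.1 y.1 ^ 2 + dist x.2 y.2 ^ 2)) ∧
      ¬ ∃ ψ : A ≃ B, ∀ a a' : A, dist (ψ a) (ψ a') = dist a a' := by
  refine ⟨ratSet, ratSqrtTwoSet, inferInstance, inferInstance, ⟨rot, fun x y => ?_⟩, ?_⟩
  · rw [rot_dist]
  · rintro ⟨ψ, hψ⟩
    have h01 := hψ ⟨1, 1, by norm_num⟩ ⟨0, 0, by norm_num⟩
    obtain ⟨p, hp⟩ := (ψ ⟨1, 1, by norm_num⟩).2
    obtain ⟨q, hq⟩ := (ψ ⟨0, 0, by norm_num⟩).2
    rw [Subtype.dist_eq, Subtype.dist_eq, Real.dist_eq, Real.dist_eq, hp, hq] at h01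
    have h1 : |(p - q : ℝ) * Real.sqrt 2| = 1 := by
      rw [sub_mul]; simpa using h01
    have hirr : Irrational (Real.sqrt 2) := irrational_sqrt_two
    have hpq : (p - q : ℚ) ≠ 0 := by
      intro h0
      have : ((p - q : ℚ) : ℝ) = 0 := by rw [h0]; simp
      push_cast at this
      rw [this] at h1
      simp at h1
    have h2 : Irrational ((p - q : ℚ) * Real.sqrt 2) := hirr.ratCast_mul hpq
    push_cast at h2
    rcases abs_eq (by norm_num : (0:ℝ) ≤ 1) |>.mp h1 with h3 | h3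
    · rw [h3] at h2
      exact h2 ⟨1, by simp⟩
    · rw [h3] at h2
      exact h2 ⟨-1, by simp⟩

end Pool.Agent.Results.MP_1231ed_gt.RotatedRationals
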